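import Pool.Agent.H80.JD.Basic

/-!
Module BF of the board jd_modules (MP_38f78d_pr): Bonferroni inequality for rows.
-/

set_option autoImplicit false

namespace Pool.Agent.H18.JD.BF

open Finset Filter Topology Pool.Agent.H80.JD

/-- number of points with the property `P`, as a real number -/
noncomputable def cc {α : Type} (P : α → Prop) : ℝ := (Nat.card {h : α // P h} : ℝ)

lemma cc_split {α : Type} [Finite α] (P Q : α → Prop) :
    cc P = cc (fun h => P h ∧ Q h) + cc (fun h => P h ∧ ¬ Q h) := by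
  classical
  have := Fintype.ofFinite α
  unfold cc
  rw [Nat.card_eq_fintype_card, Nat.card_eq_fintype_card, Nat.card_eq_fintype_card,
    Fintype.card_subtype, Fintype.card_subtype, Fintype.card_subtype, ← Nat.cast_add]
  congr 1
  rw [← Finset.card_union_of_disjoint]
  · congr 1
    ext h
    simp only [Finset.mem_filter, Finset.mem_univ, true_and, Finset.mem_union]
    tauto
  · rw [Finset.disjoint_left]
    intro h h1 h2
    simp only [Finset.mem_filter, Finset.mem_univ, true_and] at h1 h2
    exact h2.2 h1.2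

lemma cc_mono {α : Type} [Finite α] {P Q : α → Prop} (h : ∀ a, P a → Q a) : cc P ≤ cc Q := by
  unfold cc
  exact_mod_cast Nat.card_le_card_of_injective
    (fun G : {G // P G} => (⟨G.1, h _ G.2⟩ : {G // Q G}))
    (fun a b hab => Subtype.ext (by simpa using congrArg Subtype.val hab))

lemma cc_congr {α : Type} {P Q : α → Prop} (h : ∀ a, P a ↔ Q a) : cc P = cc Q := by
  have : P = Q := by funext a; exact propext (h a)
  rw [this]

lemma union_bound {α β : Type} [Finite α] (B : β → α → Prop) (P : α → Prop) (t : ℝ)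
    (Z : List β) (hZ : ∀ D ∈ Z, cc (fun h => P h ∧ ¬ B D h) ≤ t) :
    cc P ≤ cc (fun h => P h ∧ ∀ D ∈ Z, B D h) + Z.length * t := by
  induction Z with
  | nil => simp
  | cons D Z ih =>
    have h1 := ih (fun D' hD' => hZ D' (List.mem_cons_of_mem _ hD'))
    have h2 := hZ D List.mem_cons_self
    have h3 := cc_split (fun h => P h ∧ ∀ D' ∈ Z, B D' h) (fun h => B D h)
    have h4 : cc (fun h => (P h ∧ ∀ D' ∈ Z, B D' h) ∧ ¬ B D h) ≤ cc (fun h => P h ∧ ¬ B D h) :=
      cc_mono (fun a ha => ⟨ha.1.1, ha.2⟩)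
    have h5 : cc (fun h => (P h ∧ ∀ D' ∈ Z, B D' h) ∧ B D h) =
        cc (fun h => P h ∧ ∀ D' ∈ D :: Z, B D' h) := by
      apply cc_congr
      intro a
      simp only [List.forall_mem_cons]
      tauto
    rw [h5] at h3
    simp only [List.length_cons, Nat.cast_add, Nat.cast_one]
    linarith

theorem bf : T_BF := by
  intro n R Z v r
  induction Z with
  | nil =>
    intro _ _
    simp
  | cons D Z ih =>
    intro h1 h2
    rw [List.pairwise_cons] at h2
    have h3 := ih (fun D' hD' => h1 D' (List.mem_cons_of_mem _ hD')) h2.2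
    have h4 := h1 D List.mem_cons_self
    change v * 2 ^ n ≤ cc (fun h : Fin n → Bool => ¬ R (ip h D)) at h4
    change cc (fun h : Fin n → Bool => ∀ D ∈ Z, R (ip h D)) ≤ _ at h3
    change cc (fun h : Fin n → Bool => ∀ D' ∈ D :: Z, R (ip h D')) ≤ _
    have h5 := union_bound (fun (D' : Fin n → Bool) (h : Fin n → Bool) => R (ip h D'))
      (fun h : Fin n → Bool => ¬ R (ip h D)) (r * 2 ^ n) Z (fun D' hD' => h2.1 D' hD')
    have h6 := cc_split (fun h : Fin n → Bool => ∀ D' ∈ Z, R (ip h D'))
      (fun h : Fin n → Bool => R (ip h D))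
    have h7 : cc (fun h : Fin n → Bool => (∀ D' ∈ Z, R (ip h D')) ∧ R (ip h D)) =
        cc (fun h : Fin n → Bool => ∀ D' ∈ D :: Z, R (ip h D')) := by
      apply cc_congr
      intro a
      simp only [List.forall_mem_cons]
      tauto
    have h8 : cc (fun h : Fin n → Bool => (∀ D' ∈ Z, R (ip h D')) ∧ ¬ R (ip h D)) =
        cc (fun h : Fin n → Bool => ¬ R (ip h D) ∧ ∀ D' ∈ Z, R (ip h D')) := by
      apply cc_congr
      intro a
      tauto
    rw [h7, h8] at h6
    simp only [List.length_cons, Nat.cast_add, Nat.cast_one]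
    have h9 : (1 - ((Z.length : ℝ) + 1) * v + ((Z.length : ℝ) + 1) * ((Z.length : ℝ) + 1 - 1) / 2 * r)
        * 2 ^ n = (1 - Z.length * v + Z.length * (Z.length - 1) / 2 * r) * 2 ^ n - v * 2 ^ n +
          Z.length * (r * 2 ^ n) := by ring
    rw [h9]
    linarith

end Pool.Agent.H18.JD.BF
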