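import Pool.Agent.H80.JD.Basic

/-!
Module GL of the board jd_modules (MP_38f78d_pr): Lipschitz bounds for `Φ`.
-/

set_option autoImplicit false

namespace Pool.Agent.H18.JD.GL

open Finset Filter Topology Pool.Agent.H80.JD ProbabilityTheory MeasureTheory

lemma real_eq (s : Set ℝ) :
    (gaussianReal 0 1).real s = ∫ x in s, gaussianPDFReal 0 1 x := by
  unfold Measure.real
  rw [gaussianReal_apply_eq_integral 0 one_ne_zero, ENNReal.toReal_ofReal]
  exact integral_nonneg (fun x => gaussianPDFReal_nonneg 0 1 x)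

lemma pdf_eq (x : ℝ) : gaussianPDFReal 0 1 x = (Real.sqrt (2 * Real.pi))⁻¹ * Real.exp (-x ^ 2 / 2) := by
  simp [gaussianPDFReal]

lemma pdf_le (x : ℝ) : gaussianPDFReal 0 1 x ≤ 1 / 2 := by
  rw [pdf_eq]
  have h1 : (2 : ℝ) ≤ Real.sqrt (2 * Real.pi) := by
    apply Real.le_sqrt_of_sq_le
    nlinarith [Real.pi_gt_three]
  have h2 : (Real.sqrt (2 * Real.pi))⁻¹ ≤ 1 / 2 := by
    rw [one_div]
    exact inv_anti₀ (by norm_num) h1
  have h3 : Real.exp (-x ^ 2 / 2) ≤ 1 := by
    apply Real.exp_le_one_iff.2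
    have := sq_nonneg x
    linarith
  calc (Real.sqrt (2 * Real.pi))⁻¹ * Real.exp (-x ^ 2 / 2) ≤ 1 / 2 * 1 :=
        mul_le_mul h2 h3 (Real.exp_pos _).le (by norm_num)
    _ = 1 / 2 := by norm_num

lemma upper (a b : ℝ) (hab : a ≤ b) : (gaussianReal 0 1).real (Set.Icc a b) ≤ (b - a) / 2 := by
  rw [real_eq]
  have h1 : ∫ x in Set.Icc a b, gaussianPDFReal 0 1 x ≤ ∫ _x in Set.Icc a b, (1 / 2 : ℝ) := by
    apply setIntegral_mono
    · exact (integrable_gaussianPDFReal 0 1).integrableOn
    · exact integrableOn_const (by simp)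
    · exact fun x => pdf_le x
  refine h1.trans ?_
  rw [setIntegral_const]
  simp [Measure.real, hab]
  linarith

lemma lower (κ a b : ℝ) (ha : 0 ≤ a) (hab : a ≤ b) (hb : b ≤ κ) :
    gaussianPDFReal 0 1 κ * (b - a) ≤ (gaussianReal 0 1).real (Set.Ioc a b) := by
  rw [real_eq]
  have h1 : ∫ _x in Set.Ioc a b, gaussianPDFReal 0 1 κ ≤
      ∫ x in Set.Ioc a b, gaussianPDFReal 0 1 x := by
    apply setIntegral_mono_on
    · exact integrableOn_const (by simp)
    · exact (integrable_gaussianPDFReal 0 1).integrableOn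
    · exact measurableSet_Ioc
    · intro x hx
      rw [pdf_eq, pdf_eq]
      apply mul_le_mul_of_nonneg_left _ (by positivity)
      apply Real.exp_le_exp.2
      have h2 : x ^ 2 ≤ κ ^ 2 := by
        apply pow_le_pow_left₀ (by linarith [hx.1])
        linarith [hx.2]
      linarith
  refine le_trans ?_ h1
  rw [setIntegral_const]
  simp [Measure.real, hab]
  linarith

theorem gl : T_GL := by
  constructor
  · intro a b ha hab
    have h1 : Set.Icc (-b) b ⊆ Set.Icc (-a) a ∪ (Set.Icc (-b) (-a) ∪ Set.Icc a b) := by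
      intro x hx
      by_cases h1 : x < -a
      · exact Or.inr (Or.inl ⟨hx.1, h1.le⟩)
      · by_cases h2 : a < x
        · exact Or.inr (Or.inr ⟨h2.le, hx.2⟩)
        · exact Or.inl ⟨not_lt.1 h1, not_lt.1 h2⟩
    have h2 : Φ b ≤ Φ a + ((gaussianReal 0 1).real (Set.Icc (-b) (-a)) +
        (gaussianReal 0 1).real (Set.Icc a b)) := by
      unfold Φ
      refine (measureReal_mono h1).trans ?_
      refine (measureReal_union_le _ _).trans ?_
      gcongr
      exact measureReal_union_le _ _
    have h3 := upper a b hab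
    have h4 := upper (-b) (-a) (by linarith)
    linarith
  · intro κ hκ
    refine ⟨gaussianPDFReal 0 1 κ, gaussianPDFReal_pos 0 1 κ one_ne_zero, ?_⟩
    intro a b ha hab hb
    have h1 := lower κ a b ha hab hb
    have h2 : Set.Icc (-a) a ∪ Set.Ioc a b ⊆ Set.Icc (-b) b := by
      rintro x (hx | hx)
      · exact ⟨by linarith [hx.1], by linarith [hx.2]⟩
      · exact ⟨by linarith [hx.1], hx.2⟩
    have h3 : Φ a + (gaussianReal 0 1).real (Set.Ioc a b) ≤ Φ b := by
      unfold Φ
      rw [← measureReal_union]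
      · exact measureReal_mono h2
      · rw [Set.disjoint_left]
        intro x hx hx'
        linarith [hx.2, hx'.1]
      · exact measurableSet_Ioc
    linarith

end Pool.Agent.H18.JD.GL
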